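import Pool.Agent.Q123.CB.Lev
import Pool.Agent.Y358.IN.Base

/-!
# Graphs covered by balls

The class of graphs in which the ends of the edges are (fractionally) covered by balls of small
total size is closed under contraction, and no counterexample to the 5-flow conjecture which is
minimal in a class closed under contraction belongs to it.
-/

set_option autoImplicit false
set_option linter.unusedSectionVars false

namespace Pool.Agent.Q123.CB

open Finset Pool.Agent.TH676.Z Pool.Agent.Y335.FL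

variable {V E : Type}

/-- `v` can be reached from `u` by a walk with at most `r` edges -/
def Near (src dst : E → V) : ℕ → V → V → Prop
  | 0, u, v => u = v
  | r + 1, u, v => Near src dst r u v ∨
      ∃ w, Near src dst r u w ∧ ∃ e, (src e = w ∧ dst e = v) ∨ (src e = v ∧ dst e = w)

theorem near_map (src dst : E → V) (f : V → V) {r : ℕ} {u v : V} (h : Near src dst r u v) :
    Near (f ∘ src) (f ∘ dst) r (f u) (f v) := by
  induction r generalizing v with
  | zero => exact congrArg f h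
  | succ r ih =>
    rcases h with h | ⟨w, h, e, he⟩
    · exact Or.inl (ih h)
    · refine Or.inr ⟨f w, ih h, e, ?_⟩
      rcases he with ⟨h1, h2⟩ | ⟨h1, h2⟩
      · exact Or.inl ⟨congrArg f h1, congrArg f h2⟩
      · exact Or.inr ⟨congrArg f h1, congrArg f h2⟩

open Classical in
/-- the weights of the balls which contain `x`, and of the balls of the second kind which contain
`x` or `y` -/
noncomputable def cov (src dst : E → V) {k l : ℕ} (c : Fin k → V) (ρ : Fin k → ℕ) (a : Fin k → ℝ)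
    (d : Fin l → V) (σ : Fin l → ℕ) (b : Fin l → ℝ) (x y : V) : ℝ :=
  ∑ i, (if Near src dst (ρ i) (c i) x then a i else 0) +
  ∑ j, (if Near src dst (σ j) (d j) x ∨ Near src dst (σ j) (d j) y then b j else 0)

/-- the class -/
def ClB (src dst : E → V) : Prop := ∃ (k l : ℕ) (c : Fin k → V) (ρ : Fin k → ℕ) (a : Fin k → ℝ)
  (d : Fin l → V) (σ : Fin l → ℕ) (b : Fin l → ℝ), (∀ i, 0 ≤ a i) ∧ (∀ j, 0 ≤ b j) ∧
  ∑ i, a i * (3 * 2 ^ ρ i - 2) + ∑ j, b j * (4 * 2 ^ σ j - 2) < 126 ∧
  ∀ e x y, ((src e = x ∧ dst e = y) ∨ (src e = y ∧ dst e = x)) → x ≠ y →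
    1 ≤ cov src dst c ρ a d σ b x y

section

variable [Fintype V] [DecidableEq V] [Fintype E] [DecidableEq E]

open Pool.Agent.Y358.IN

theorem ccB : CC (V := V) (E := E) ClB := by
  classical
  intro src dst e0 h _
  obtain ⟨k, l, c, ρ, a, d, σ, b, ha, hb, hs, hc⟩ := h
  set f : V → V := ctr (src e0) (dst e0) with hf
  refine ⟨k, l, f ∘ c, ρ, a, f ∘ d, σ, b, ha, hb, hs, ?_⟩
  intro e x' y' hj hne
  obtain ⟨x, y, hxy, hx, hy⟩ : ∃ x y, ((src e = x ∧ dst e = y) ∨ (src e = y ∧ dst e = x)) ∧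
      f x = x' ∧ f y = y' := by
    rcases hj with ⟨h1, h2⟩ | ⟨h1, h2⟩
    · exact ⟨src e, dst e, Or.inl ⟨rfl, rfl⟩, h1, h2⟩
    · exact ⟨dst e, src e, Or.inr ⟨rfl, rfl⟩, h2, h1⟩
  have hne' : x ≠ y := by
    rintro rfl
    exact hne (hx.symm.trans hy)
  refine (hc e x y hxy hne').trans ?_
  unfold cov
  refine add_le_add (sum_le_sum fun i _ => ?_) (sum_le_sum fun j _ => ?_)
  · by_cases h : Near src dst (ρ i) (c i) x
    · have h' : Near (f ∘ src) (f ∘ dst) (ρ i) ((f ∘ c) i) x' := hx ▸ near_map src dst f h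
      rw [if_pos h, if_pos h']
    · rw [if_neg h]
      split_ifs
      · exact ha i
      · exact le_rfl
  · by_cases h : Near src dst (σ j) (d j) x ∨ Near src dst (σ j) (d j) y
    · have h' : Near (f ∘ src) (f ∘ dst) (σ j) ((f ∘ d) j) x' ∨
          Near (f ∘ src) (f ∘ dst) (σ j) ((f ∘ d) j) y' := by
        rcases h with h | h
        · exact Or.inl (hx ▸ near_map src dst f h)
        · exact Or.inr (hy ▸ near_map src dst f h)
      rw [if_pos h, if_pos h']
    · rw [if_neg h]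
      split_ifs
      · exact hb j
      · exact le_rfl

/-- the simple graph -/
def SG (s d : E → V) : SimpleGraph V :=
  { Adj := Adj s d
    symm := ⟨fun a b h => ⟨h.1.symm, h.2.imp fun e he => he.symm⟩⟩
    loopless := ⟨fun a h => h.1 rfl⟩ }

theorem near_walk (s d : E → V) {r : ℕ} {u v : V} (h : Near s d r u v) :
    ∃ p : (SG s d).Walk u v, p.length ≤ r := by
  induction r generalizing v with
  | zero =>
    obtain rfl : u = v := h
    exact ⟨SimpleGraph.Walk.nil, le_rfl⟩
  | succ r ih =>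
    rcases h with h | ⟨w, h, e, he⟩
    · obtain ⟨p, hp⟩ := ih h
      exact ⟨p, by omega⟩
    · obtain ⟨p, hp⟩ := ih h
      by_cases hwv : w = v
      · subst hwv
        exact ⟨p, by omega⟩
      · have hadj : (SG s d).Adj w v := ⟨hwv, e, he⟩
        exact ⟨p.concat hadj, by rw [SimpleGraph.Walk.length_concat]; omega⟩

/-- **Main step.** -/
theorem flow_of_ClB (hc : St_contract) (src dst : E → V) (hcl : ClB src dst)
    (hbr : Br src dst ∅ ∅) : FlowOn src dst ∅ ∅ := by
  classical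
  by_contra hn
  obtain ⟨s, d, ⟨k, l, c, ρ, a, dd, σ, b, ha, hb, hs, hcov⟩, hM⟩ := exists_minC ccB src dst hcl hbr hn
  have h3 := threeC hc hM
  have hgi := girthC hc hM
  by_cases hl : ∀ e, s e = d e
  · exact hM.nf (flow_of_loops hl)
  push Not at hl
  obtain ⟨e0, he0⟩ := hl
  set G := SG s d with hGdef
  have hG : ∀ a b, G.Adj a b ↔ Adj s d a b := fun a b => Iff.rfl
  have h12 : G12 G := fun w c hc => Ord.cycle_len hgi G hG c hc
  have h3' : Th3 G := h3
  have hpos : 0 < (PD G).card := card_pos.2 ⟨(s e0, d e0), mem_PD.2 ⟨he0, e0, Or.inl ⟨rfl, rfl⟩⟩⟩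
  have hA : ∀ i, ∑ f ∈ PD G, (if Near s d (ρ i) (c i) f.1 then a i else 0) ≤
      a i * (3 * 2 ^ ρ i - 2) * ((PD G).card / 126) := by
    intro i
    have e1 : ∑ f ∈ PD G, (if Near s d (ρ i) (c i) f.1 then a i else 0) ≤
        ∑ f ∈ PD G, (if f.1 ∈ Bl G (ρ i) (c i) then a i else 0) := by
      refine sum_le_sum fun f _ => ?_
      by_cases h : Near s d (ρ i) (c i) f.1
      · rw [if_pos h, if_pos (mem_Bl.2 (near_walk s d h))]
      · rw [if_neg h]
        split_ifs
        · exact ha i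
        · exact le_rfl
    have e2 : ∑ f ∈ PD G, (if f.1 ∈ Bl G (ρ i) (c i) then a i else 0) =
        a i * (DA G (ρ i) (c i)).card := by
      rw [← sum_filter, sum_const, nsmul_eq_mul, mul_comm]
      rfl
    have e3 := DA_share h12 h3' (ρ i) (c i)
    have e4 : (126 : ℝ) * (DA G (ρ i) (c i)).card ≤ (3 * 2 ^ ρ i - 2) * (PD G).card := by
      have h5 : 2 ≤ 3 * 2 ^ ρ i := by
        have := Nat.one_le_two_pow (n := ρ i)
        omega
      have := (Nat.cast_le (α := ℝ)).2 e3
      rw [Nat.cast_mul, Nat.cast_mul, Nat.cast_sub h5] at this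
      push_cast at this
      exact this
    have e5 : a i * (126 * (DA G (ρ i) (c i)).card : ℝ) ≤ a i * ((3 * 2 ^ ρ i - 2) * (PD G).card) :=
      mul_le_mul_of_nonneg_left e4 (ha i)
    rw [e2] at e1
    refine e1.trans ?_
    nlinarith
  have hB : ∀ j, ∑ f ∈ PD G, (if Near s d (σ j) (dd j) f.1 ∨ Near s d (σ j) (dd j) f.2 then b j
      else 0) ≤ b j * (4 * 2 ^ σ j - 2) * ((PD G).card / 126) := by
    intro j
    have e1 : ∑ f ∈ PD G, (if Near s d (σ j) (dd j) f.1 ∨ Near s d (σ j) (dd j) f.2 then b j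
        else 0) ≤
        ∑ f ∈ PD G, (if f.1 ∈ Bl G (σ j) (dd j) ∨ f.2 ∈ Bl G (σ j) (dd j) then b j else 0) := by
      refine sum_le_sum fun f _ => ?_
      by_cases h : Near s d (σ j) (dd j) f.1 ∨ Near s d (σ j) (dd j) f.2
      · have h' : f.1 ∈ Bl G (σ j) (dd j) ∨ f.2 ∈ Bl G (σ j) (dd j) := by
          rcases h with h | h
          · exact Or.inl (mem_Bl.2 (near_walk s d h))
          · exact Or.inr (mem_Bl.2 (near_walk s d h))
        rw [if_pos h, if_pos h']
      · rw [if_neg h]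
        split_ifs
        · exact hb j
        · exact le_rfl
    have e2 : ∑ f ∈ PD G, (if f.1 ∈ Bl G (σ j) (dd j) ∨ f.2 ∈ Bl G (σ j) (dd j) then b j else 0) =
        b j * (DE G (σ j) (dd j)).card := by
      rw [← sum_filter, sum_const, nsmul_eq_mul, mul_comm]
      rfl
    have e3 := DE_share h12 h3' (σ j) (dd j)
    have e4 : (126 : ℝ) * (DE G (σ j) (dd j)).card ≤ (4 * 2 ^ σ j - 2) * (PD G).card := by
      have h5 : 2 ≤ 4 * 2 ^ σ j := by
        have := Nat.one_le_two_pow (n := σ j)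
        omega
      have := (Nat.cast_le (α := ℝ)).2 e3
      rw [Nat.cast_mul, Nat.cast_mul, Nat.cast_sub h5] at this
      push_cast at this
      exact this
    have e5 : b j * (126 * (DE G (σ j) (dd j)).card : ℝ) ≤
        b j * ((4 * 2 ^ σ j - 2) * (PD G).card) := mul_le_mul_of_nonneg_left e4 (hb j)
    rw [e2] at e1
    refine e1.trans ?_
    nlinarith
  have h1 : ((PD G).card : ℝ) ≤ ∑ f ∈ PD G, cov s d c ρ a dd σ b f.1 f.2 := by
    have h2 : ∑ _f ∈ PD G, (1 : ℝ) ≤ ∑ f ∈ PD G, cov s d c ρ a dd σ b f.1 f.2 := by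
      refine sum_le_sum fun f hf => ?_
      obtain ⟨hne, e, he⟩ := mem_PD.1 hf
      exact hcov e f.1 f.2 he hne
    simpa using h2
  have h2 : ∑ f ∈ PD G, cov s d c ρ a dd σ b f.1 f.2 ≤
      (∑ i, a i * (3 * 2 ^ ρ i - 2) + ∑ j, b j * (4 * 2 ^ σ j - 2)) * ((PD G).card / 126) := by
    unfold cov
    rw [sum_add_distrib, sum_comm, sum_comm (s := PD G) (t := univ), add_mul, sum_mul, sum_mul]
    exact add_le_add (sum_le_sum fun i _ => hA i) (sum_le_sum fun j _ => hB j)
  have h4 : (0 : ℝ) < (PD G).card := by exact_mod_cast hpos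
  have h5 : (∑ i, a i * (3 * 2 ^ ρ i - 2) + ∑ j, b j * (4 * 2 ^ σ j - 2)) *
      (((PD G).card : ℝ) / 126) < 126 * (((PD G).card : ℝ) / 126) :=
    mul_lt_mul_of_pos_right hs (by positivity)
  linarith

end

end Pool.Agent.Q123.CB
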