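import Mathlib

set_option autoImplicit false

/-!
The centre of the cube `[0,1]^n` and vertex sets of small diameter.
-/

namespace Pool.Agent.Q123.CB

open Finset

variable {n : ℕ}

/-- the vertex of the cube `[0, 1] ^ n` given by `b` -/
def pt (b : Fin n → Bool) : Fin n → ℝ := fun j => if b j then 1 else 0

/-- the centre `(1/2, …, 1/2)` of the cube -/
noncomputable def center (n : ℕ) : Fin n → ℝ := fun _ => 1 / 2

/-- any two members of `σ` have Hamming distance at most `r` -/
def DiamLe (σ : Finset (Fin n → Bool)) (r : ℕ) : Prop :=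
  ∀ a ∈ σ, ∀ b ∈ σ, hammingDist a b ≤ r

/-- the centre of the cube lies in the image of `VR(Q_n; r) → [0,1]^n`: in the convex hull of a set
of vertices of diameter at most `r` -/
def CenterInImage (n r : ℕ) : Prop :=
  ∃ σ : Finset (Fin n → Bool), DiamLe σ r ∧
    center n ∈ convexHull ℝ (pt '' (σ : Set (Fin n → Bool)))

/-- the centre is the unweighted average of the nonempty set `B` of vertices -/
def Balanced (B : Finset (Fin n → Bool)) : Prop :=
  B.Nonempty ∧ (B.card : ℝ)⁻¹ • ∑ b ∈ B, pt b = center n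

/-- a Hadamard matrix of order `N` -/
def IsHadamard (N : ℕ) (H : Matrix (Fin N) (Fin N) ℤ) : Prop :=
  (∀ i j, H i j = 1 ∨ H i j = -1) ∧ H * H.transpose = (N : ℤ) • (1 : Matrix (Fin N) (Fin N) ℤ)

/-- `n ≤ 2 r - 1` for even `r`; `n ≤ 2 r - 2` or `n = r = 1` for odd `r` -/
def Bound (n r : ℕ) : Prop :=
  (Even r → n < 2 * r) ∧ (¬ Even r → n + 1 < 2 * r ∨ (n = 1 ∧ r = 1))

/-- signs -/
def S (a : Fin n → Bool) (j : Fin n) : ℝ := if a j then 1 else -1

theorem S_mul (a b : Fin n → Bool) (j : Fin n) :
    S a j * S b j = if a j ≠ b j then -1 else 1 := by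
  unfold S
  cases a j <;> cases b j <;> simp

theorem ip_eq (a b : Fin n → Bool) :
    ∑ j, S a j * S b j = (n : ℝ) - 2 * (hammingDist a b : ℝ) := by
  simp only [S_mul]
  rw [Finset.sum_ite, Finset.sum_const, Finset.sum_const, hammingDist]
  have h : (univ.filter fun j => a j ≠ b j).card + (univ.filter fun j => ¬ a j ≠ b j).card = n := by
    rw [Finset.card_filter_add_card_filter_not]
    simp
  have h' : ((univ.filter fun j => a j ≠ b j).card : ℝ) +
      ((univ.filter fun j => ¬ a j ≠ b j).card : ℝ) = n := by exact_mod_cast h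
  rw [nsmul_eq_mul, nsmul_eq_mul]
  linarith

/-- the parity of a vertex as a sign -/
def par (a : Fin n → Bool) : ℝ := ∏ j, S a j

theorem par_mul (a b : Fin n → Bool) : par a * par b = (-1) ^ hammingDist a b := by
  unfold par
  rw [← Finset.prod_mul_distrib]
  simp only [S_mul]
  rw [Finset.prod_ite, Finset.prod_const, Finset.prod_const, hammingDist, one_pow, mul_one]

theorem S_sq (a : Fin n → Bool) (j : Fin n) : S a j * S a j = 1 := by
  unfold S; split_ifs <;> norm_num

theorem par_sq (a : Fin n → Bool) : par a * par a = 1 := by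
  rw [par_mul, hammingDist_self, pow_zero]

/-- the centre is not in the convex hull if the inner products are large -/
theorem not_mem_of {σ : Finset (Fin n → Bool)} (e : (Fin n → Bool) → ℝ) {δ : ℝ} (hδ : 0 < δ)
    (h1 : ∀ a, e a * e a + δ ≤ n)
    (h2 : ∀ a ∈ σ, ∀ b ∈ σ, e a * e b ≤ (n : ℝ) - 2 * (hammingDist a b : ℝ)) :
    center n ∉ convexHull ℝ (pt '' (σ : Set (Fin n → Bool))) := by
  classical
  intro hc
  rw [_root_.convexHull_eq] at hc
  obtain ⟨ι, t, w, z, hw, hw1, hz, hcm⟩ := hc
  choose! b hb hbz using hz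
  have hcoord : ∀ k, ∑ i ∈ t, w i * S (b i) k = 0 := by
    intro k
    have h3 := congrFun hcm k
    rw [Finset.centerMass_eq_of_sum_1 _ _ hw1, Finset.sum_apply] at h3
    have h4 : ∀ i ∈ t, w i * S (b i) k = 2 * (w i • z i) k - w i := by
      intro i hi
      rw [← hbz i hi]
      simp only [Pi.smul_apply, smul_eq_mul, pt, S]
      split_ifs <;> ring
    rw [Finset.sum_congr rfl h4, Finset.sum_sub_distrib, ← Finset.mul_sum, h3, hw1]
    simp [center]
  have hsum : ∑ i ∈ t, ∑ j ∈ t, w i * w j * ((n : ℝ) - 2 * (hammingDist (b i) (b j) : ℝ)) = 0 := by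
    have h5 : ∀ i j, w i * w j * ((n : ℝ) - 2 * (hammingDist (b i) (b j) : ℝ)) =
        ∑ k, (w i * S (b i) k) * (w j * S (b j) k) := by
      intro i j
      rw [← ip_eq, Finset.mul_sum]
      exact Finset.sum_congr rfl fun k _ => by ring
    simp only [h5]
    calc ∑ i ∈ t, ∑ j ∈ t, ∑ k, (w i * S (b i) k) * (w j * S (b j) k)
        = ∑ i ∈ t, ∑ k, ∑ j ∈ t, (w i * S (b i) k) * (w j * S (b j) k) :=
          Finset.sum_congr rfl fun i _ => Finset.sum_comm
      _ = ∑ i ∈ t, ∑ k, (w i * S (b i) k) * ∑ j ∈ t, (w j * S (b j) k) := by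
          simp only [Finset.mul_sum]
      _ = 0 := by simp [hcoord]
  have hlow : ∑ i ∈ t, ∑ j ∈ t, ((w i * e (b i)) * (w j * e (b j)) +
      if i = j then δ * (w i * w i) else 0) ≤ 0 := by
    refine le_trans (Finset.sum_le_sum fun i hi => Finset.sum_le_sum fun j hj => ?_) hsum.le
    by_cases hij : i = j
    · subst hij
      rw [if_pos rfl, hammingDist_self]
      have := h1 (b i)
      have h6 : 0 ≤ w i * w i := mul_self_nonneg _
      have h7 := mul_le_mul_of_nonneg_left this h6
      push_cast
      nlinarith [h7]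
    · rw [if_neg hij, add_zero]
      have h6 : 0 ≤ w i * w j := mul_nonneg (hw i hi) (hw j hj)
      have h7 := mul_le_mul_of_nonneg_left (h2 _ (hb i hi) _ (hb j hj)) h6
      calc (w i * e (b i)) * (w j * e (b j)) = w i * w j * (e (b i) * e (b j)) := by ring
        _ ≤ _ := h7
  have hexp : ∑ i ∈ t, ∑ j ∈ t, ((w i * e (b i)) * (w j * e (b j)) +
      if i = j then δ * (w i * w i) else 0) =
      (∑ i ∈ t, w i * e (b i)) * (∑ j ∈ t, w j * e (b j)) + δ * ∑ i ∈ t, w i * w i := by
    simp only [Finset.sum_add_distrib]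
    congr 1
    · rw [Finset.sum_mul_sum]
    · rw [Finset.mul_sum]
      refine Finset.sum_congr rfl fun i hi => ?_
      rw [Finset.sum_ite_eq, if_pos hi]
  rw [hexp] at hlow
  have hpos : 0 < ∑ i ∈ t, w i * w i := by
    refine lt_of_le_of_ne (Finset.sum_nonneg fun i _ => mul_self_nonneg _) fun h0 => ?_
    have h8 := (Finset.sum_eq_zero_iff_of_nonneg fun i _ => mul_self_nonneg (w i)).1 h0.symm
    have h9 : ∑ i ∈ t, w i = 0 := Finset.sum_eq_zero fun i hi => by
      simpa using h8 i hi
    rw [hw1] at h9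
    exact one_ne_zero h9
  nlinarith [mul_pos hδ hpos, mul_self_nonneg (∑ i ∈ t, w i * e (b i))]

/-- the upper bound -/
theorem bound_of_center {n r : ℕ} (hn : 1 ≤ n) (h : CenterInImage n r) : Bound n r := by
  obtain ⟨σ, hσ, hc⟩ := h
  constructor
  · intro _
    by_contra hlt
    push Not at hlt
    refine not_mem_of (fun _ => 0) (δ := n) (by exact_mod_cast hn) (fun a => by simp) ?_ hc
    intro a ha b hb
    have h1 := hσ a ha b hb
    have h2 : (2 * hammingDist a b : ℝ) ≤ n := by
      have : 2 * hammingDist a b ≤ n := by omega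
      exact_mod_cast this
    simp only [mul_zero]
    linarith
  · intro hodd
    by_contra hcon
    push Not at hcon
    obtain ⟨hlt, hne⟩ := hcon
    have hodd' : Odd r := Nat.not_even_iff_odd.1 hodd
    have hr1 : 1 ≤ r := hodd'.pos
    have hn2 : 2 ≤ n := by
      rcases Nat.lt_or_ge n 2 with h2 | h2
      · have hn1 : n = 1 := by omega
        have : r = 1 := by omega
        exact absurd this (hne hn1)
      · exact h2
    refine not_mem_of par (δ := n - 1) ?_ (fun a => by rw [par_sq]; linarith) ?_ hc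
    · have : (2 : ℝ) ≤ n := by exact_mod_cast hn2
      linarith
    intro a ha b hb
    have h1 := hσ a ha b hb
    rw [par_mul]
    rcases Nat.even_or_odd (hammingDist a b) with he | ho
    · rw [he.neg_one_pow]
      have h3 : hammingDist a b ≠ r := by
        intro h; rw [h] at he; exact hodd he
      have h4 : 2 * hammingDist a b + 1 ≤ n := by omega
      have h5 : (2 * hammingDist a b + 1 : ℝ) ≤ n := by exact_mod_cast h4
      linarith
    · rw [ho.neg_one_pow]
      have h4 : 2 * hammingDist a b ≤ n + 1 := by omega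
      have h5 : (2 * hammingDist a b : ℝ) ≤ n + 1 := by exact_mod_cast h4
      linarith

/-- a balanced set has the centre in its convex hull -/
theorem center_of_balanced {n r : ℕ} {B : Finset (Fin n → Bool)} (hB : Balanced B)
    (hd : DiamLe B r) : CenterInImage n r := by
  refine ⟨B, hd, ?_⟩
  rw [← hB.2]
  have hcard : (0 : ℝ) < B.card := by exact_mod_cast hB.1.card_pos
  rw [Finset.smul_sum]
  refine (convex_convexHull ℝ _).sum_mem (fun _ _ => by positivity) ?_ fun b hb =>
    subset_convexHull ℝ _ ⟨b, hb, rfl⟩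
  rw [Finset.sum_const, nsmul_eq_mul, mul_inv_cancel₀ hcard.ne']

theorem balanced_univ (n : ℕ) : Balanced (univ : Finset (Fin n → Bool)) := by
  refine ⟨univ_nonempty, ?_⟩
  ext j
  have hsum : ∑ b : Fin n → Bool, pt b j = ∑ b : Fin n → Bool, (1 - pt b j) := by
    refine Finset.sum_equiv (Equiv.arrowCongr (Equiv.refl (Fin n)) Equiv.boolNot) (by simp) ?_
    intro b _
    simp only [pt, Equiv.arrowCongr_apply, Function.comp, Equiv.refl_symm, Equiv.refl_apply,
      Equiv.boolNot_apply]
    cases b j <;> simp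
  rw [Finset.sum_sub_distrib, Finset.sum_const, nsmul_eq_mul, mul_one] at hsum
  have hcard : (0 : ℝ) < ((univ : Finset (Fin n → Bool)).card : ℝ) := by
    exact_mod_cast Finset.card_pos.2 univ_nonempty
  rw [Pi.smul_apply, Finset.sum_apply, smul_eq_mul, center]
  field_simp
  linarith

end Pool.Agent.Q123.CB
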