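import Pool.Agent.Q123.CB.Defs

set_option autoImplicit false

/-!
Balanced vertex sets of small diameter from Hadamard matrices.
-/

namespace Pool.Agent.Q123.CB

open Finset

variable {N : ℕ}

theorem had_rows {H : Matrix (Fin N) (Fin N) ℤ} (hH : IsHadamard N H) {i k : Fin N}
    (hik : i ≠ k) : ∑ c, H i c * H k c = 0 := by
  have h := congrFun (congrFun hH.2 i) k
  rw [Matrix.mul_apply] at h
  simpa [Matrix.smul_apply, Matrix.one_apply_ne hik] using h

theorem had_cols {H : Matrix (Fin N) (Fin N) ℤ} (hH : IsHadamard N H) {c d : Fin N}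
    (hcd : c ≠ d) : ∑ i, H i c * H i d = 0 := by
  have hN : (N : ℚ) ≠ 0 := by
    have : 0 < N := c.pos
    exact_mod_cast this.ne'
  set Hq : Matrix (Fin N) (Fin N) ℚ := H.map (Int.castRingHom ℚ) with hHq
  have h1 : Hq * Hq.transpose = (N : ℚ) • (1 : Matrix (Fin N) (Fin N) ℚ) := by
    have h2 := congrArg (fun M : Matrix (Fin N) (Fin N) ℤ => M.map (Int.castRingHom ℚ)) hH.2
    simp only [Matrix.map_mul, Matrix.transpose_map] at h2
    rw [hHq, h2]
    ext i j
    simp only [Matrix.map_apply, Matrix.smul_apply, smul_eq_mul, Matrix.one_apply]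
    split_ifs <;> simp
  have h3 : ((N : ℚ)⁻¹ • Hq) * Hq.transpose = 1 := by
    rw [Matrix.smul_mul, h1, smul_smul, inv_mul_cancel₀ hN, one_smul]
  have h4 := mul_eq_one_comm.1 h3
  rw [Matrix.mul_smul] at h4
  have h5 := congrFun (congrFun h4 c) d
  rw [Matrix.smul_apply, Matrix.mul_apply, Matrix.one_apply_ne hcd, smul_eq_mul] at h5
  have h6 : ∑ i, Hq.transpose c i * Hq i d = 0 := by
    rcases mul_eq_zero.1 h5 with h | h
    · exact absurd (inv_eq_zero.1 h) hN
    · exact h
  have h7 : ((∑ i, H i c * H i d : ℤ) : ℚ) = 0 := by
    rw [← h6]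
    push_cast
    exact Finset.sum_congr rfl fun i _ => by simp [hHq]
  exact_mod_cast h7

/-- the entries of the matrix whose rows are normalised so that column `o` consists of ones -/
def G (H : Matrix (Fin N) (Fin N) ℤ) (o i c : Fin N) : ℤ := H i c * H i o

theorem G_pm {H : Matrix (Fin N) (Fin N) ℤ} (hH : IsHadamard N H) (o i c : Fin N) :
    G H o i c = 1 ∨ G H o i c = -1 := by
  unfold G
  rcases hH.1 i c with h1 | h1 <;> rcases hH.1 i o with h2 | h2 <;> rw [h1, h2] <;> simp

theorem G_o {H : Matrix (Fin N) (Fin N) ℤ} (hH : IsHadamard N H) (o i : Fin N) :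
    G H o i o = 1 := by
  unfold G
  rcases hH.1 i o with h2 | h2 <;> rw [h2] <;> norm_num

theorem G_cols {H : Matrix (Fin N) (Fin N) ℤ} (hH : IsHadamard N H) {o c : Fin N}
    (hc : c ≠ o) : ∑ i, G H o i c = 0 := had_cols hH hc

/-- the columns in which two normalised rows differ -/
def P (H : Matrix (Fin N) (Fin N) ℤ) (o i k : Fin N) : Finset (Fin N) :=
  univ.filter fun c => G H o i c ≠ G H o k c

theorem card_P {H : Matrix (Fin N) (Fin N) ℤ} (hH : IsHadamard N H) (o : Fin N) {i k : Fin N}
    (hik : i ≠ k) : 2 * (P H o i k).card = N := by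
  have h1 : ∑ c, G H o i c * G H o k c = 0 := by
    have h2 : ∀ c, G H o i c * G H o k c = (H i o * H k o) * (H i c * H k c) := fun c => by
      unfold G; ring
    simp only [h2]
    rw [← Finset.mul_sum, had_rows hH hik, mul_zero]
  have h3 : ∀ c, G H o i c * G H o k c = if G H o i c ≠ G H o k c then -1 else 1 := by
    intro c
    rcases G_pm hH o i c with h | h <;> rcases G_pm hH o k c with h' | h' <;> rw [h, h'] <;> simp
  simp only [h3] at h1
  rw [Finset.sum_ite, Finset.sum_const, Finset.sum_const] at h1
  have h4 : (P H o i k).card + (univ.filter fun c => ¬ G H o i c ≠ G H o k c).card = N := by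
    unfold P
    rw [Finset.card_filter_add_card_filter_not]
    simp
  have h5 : (univ.filter fun c => G H o i c ≠ G H o k c) = P H o i k := rfl
  rw [h5] at h1
  simp only [nsmul_eq_mul, mul_neg, mul_one] at h1
  omega

theorem o_notMem_P {H : Matrix (Fin N) (Fin N) ℤ} (hH : IsHadamard N H) (o i k : Fin N) :
    o ∉ P H o i k := by
  simp [P, G_o hH]

/-- the vertex of `Q_n` given by a row and a choice of columns -/
def vert {n : ℕ} (H : Matrix (Fin N) (Fin N) ℤ) (o : Fin N) (col : Fin n → Fin N) (i : Fin N) :
    Fin n → Bool := fun j => decide (G H o i (col j) = 1)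

theorem vert_ne {n : ℕ} {H : Matrix (Fin N) (Fin N) ℤ} (hH : IsHadamard N H) (o : Fin N)
    (col : Fin n → Fin N) (i k : Fin N) (j : Fin n) :
    vert H o col i j ≠ vert H o col k j ↔ col j ∈ P H o i k := by
  unfold vert P
  simp only [Finset.mem_filter, Finset.mem_univ, true_and]
  rcases G_pm hH o i (col j) with h | h <;> rcases G_pm hH o k (col j) with h' | h' <;>
    rw [h, h'] <;> simp

theorem vert_dist {n : ℕ} {H : Matrix (Fin N) (Fin N) ℤ} (hH : IsHadamard N H) (o : Fin N)
    (col : Fin n → Fin N) (i k : Fin N) :
    hammingDist (vert H o col i) (vert H o col k) =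
      (univ.filter fun j => col j ∈ P H o i k).card := by
  unfold hammingDist
  congr 1
  ext j
  simp only [Finset.mem_filter, Finset.mem_univ, true_and]
  exact vert_ne hH o col i k j

theorem balanced_image {n : ℕ} {H : Matrix (Fin N) (Fin N) ℤ} (hH : IsHadamard N H) (o : Fin N)
    (col : Fin n → Fin N) (hcol : ∀ j, col j ≠ o)
    (hinj : Function.Injective (vert H o col)) : Balanced (univ.image (vert H o col)) := by
  classical
  have hcard : (univ.image (vert H o col)).card = N := by
    rw [Finset.card_image_of_injective _ hinj]; simp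
  have hN : (0 : ℝ) < N := by exact_mod_cast o.pos
  refine ⟨⟨vert H o col o, Finset.mem_image_of_mem _ (Finset.mem_univ _)⟩, ?_⟩
  rw [hcard, Finset.sum_image fun a _ b _ h => hinj h]
  ext j
  rw [Pi.smul_apply, Finset.sum_apply, smul_eq_mul, center]
  have h1 : ∀ i, pt (vert H o col i) j = ((G H o i (col j) : ℝ) + 1) / 2 := by
    intro i
    unfold pt vert
    rcases G_pm hH o i (col j) with h | h <;> rw [h] <;> norm_num
  simp only [h1]
  rw [← Finset.sum_div, Finset.sum_add_distrib]
  have h2 : ∑ i, (G H o i (col j) : ℝ) = 0 := by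
    have := G_cols hH (hcol j)
    exact_mod_cast this
  rw [h2]
  simp only [Finset.sum_const, Finset.card_univ, Fintype.card_fin, nsmul_eq_mul, mul_one, zero_add]
  field_simp

/-- even `r` -/
theorem even_case {r n : ℕ} (_hr : Even r) (hr2 : 2 ≤ r) (hn : r < n) (hb : n < 2 * r)
    {H : Matrix (Fin N) (Fin N) ℤ} (hN : N = 2 * r) (hH : IsHadamard N H) :
    ∃ B : Finset (Fin n → Bool), Balanced B ∧ DiamLe B r := by
  classical
  have hN0 : 0 < N := by omega
  set o : Fin N := ⟨0, hN0⟩ with ho
  set col : Fin n → Fin N := fun j => ⟨j.val + 1, by have := j.isLt; omega⟩ with hcol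
  have hcolinj : Function.Injective col := by
    intro a b h
    have := congrArg Fin.val h
    simp only [hcol] at this
    exact Fin.ext (by omega)
  have hinj : Function.Injective (vert H o col) := by
    intro i k hik
    by_contra hne
    have h1 := card_P hH o hne
    have h2 : (P H o i k).card ≤ (Finset.range (N - 1 - n)).card := by
      refine Finset.card_le_card_of_injOn (fun c => c.val - (n + 1)) ?_ ?_
      · intro c hc
        have hc' : c ∈ P H o i k := hc
        have h3 : n < c.val := by
          by_contra h4
          push Not at h4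
          have hc0 : c.val ≠ 0 := by
            intro h5
            apply o_notMem_P hH o i k
            have : c = o := Fin.ext (by rw [h5])
            rwa [this] at hc'
          have h6 : c = col ⟨c.val - 1, by omega⟩ := Fin.ext (by simp only [hcol]; omega)
          rw [h6] at hc'
          exact (vert_ne hH o col i k _).2 hc' (congrFun hik _)
        have := c.isLt
        simp only [Finset.coe_range, Set.mem_Iio]
        omega
      · intro c hc c' hc' h
        have aux : ∀ c : Fin N, c ∈ P H o i k → n < c.val := by
          intro c hc'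
          by_contra h4
          push Not at h4
          have hc0 : c.val ≠ 0 := by
            intro h5
            apply o_notMem_P hH o i k
            have : c = o := Fin.ext (by rw [h5])
            rwa [this] at hc'
          have h6 : c = col ⟨c.val - 1, by omega⟩ := Fin.ext (by simp only [hcol]; omega)
          rw [h6] at hc'
          exact (vert_ne hH o col i k _).2 hc' (congrFun hik _)
        have h7 := aux c hc
        have h8 := aux c' hc'
        have h9 : c.val - (n + 1) = c'.val - (n + 1) := h
        exact Fin.ext (by omega)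
    rw [Finset.card_range] at h2
    omega
  refine ⟨univ.image (vert H o col), balanced_image hH o col (fun j h => ?_) hinj, ?_⟩
  · have := congrArg Fin.val h
    simp [hcol, ho] at this
  · intro a ha b hb'
    obtain ⟨i, _, rfl⟩ := Finset.mem_image.1 ha
    obtain ⟨k, _, rfl⟩ := Finset.mem_image.1 hb'
    by_cases hik : i = k
    · rw [hik, hammingDist_self]; omega
    · rw [vert_dist hH]
      have h1 := card_P hH o hik
      have h2 : (univ.filter fun j => col j ∈ P H o i k).card ≤ (P H o i k).card :=
        Finset.card_le_card_of_injOn col (fun j hj => by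
          have := (Finset.mem_filter.1 (Finset.mem_coe.1 hj)).2
          exact Finset.mem_coe.2 this) (fun a _ b _ h => hcolinj h)
      omega

/-- odd `r` -/
theorem odd_case {r n : ℕ} (_hr : Odd r) (hr2 : 3 ≤ r) (hn : r < n) (hb : n + 1 < 2 * r)
    {H : Matrix (Fin N) (Fin N) ℤ} (hN : N = 2 * r - 2) (hH : IsHadamard N H) :
    ∃ B : Finset (Fin n → Bool), Balanced B ∧ DiamLe B r := by
  classical
  have hN0 : 0 < N := by omega
  set o : Fin N := ⟨0, hN0⟩ with ho
  set col : Fin n → Fin N := fun j => ⟨max j.val 1, by have := j.isLt; omega⟩ with hcol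
  have hinj : Function.Injective (vert H o col) := by
    intro i k hik
    by_contra hne
    have h1 := card_P hH o hne
    have aux : ∀ c : Fin N, c ∈ P H o i k → n ≤ c.val := by
      intro c hc'
      by_contra h4
      push Not at h4
      have hc0 : c.val ≠ 0 := by
        intro h5
        apply o_notMem_P hH o i k
        have : c = o := Fin.ext (by rw [h5])
        rwa [this] at hc'
      have h6 : c = col ⟨c.val, h4⟩ := Fin.ext (by simp only [hcol]; omega)
      rw [h6] at hc'
      exact (vert_ne hH o col i k _).2 hc' (congrFun hik _)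
    have h2 : (P H o i k).card ≤ (Finset.range (N - n)).card := by
      refine Finset.card_le_card_of_injOn (fun c => c.val - n) ?_ ?_
      · intro c hc
        have h3 := aux c hc
        have := c.isLt
        simp only [Finset.coe_range, Set.mem_Iio]
        omega
      · intro c hc c' hc' h
        have h7 := aux c hc
        have h8 := aux c' hc'
        have h9 : c.val - n = c'.val - n := h
        exact Fin.ext (by omega)
    rw [Finset.card_range] at h2
    omega
  refine ⟨univ.image (vert H o col), balanced_image hH o col (fun j h => ?_) hinj, ?_⟩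
  · have := congrArg Fin.val h
    simp only [hcol, ho] at this
    omega
  · intro a ha b hb'
    obtain ⟨i, _, rfl⟩ := Finset.mem_image.1 ha
    obtain ⟨k, _, rfl⟩ := Finset.mem_image.1 hb'
    by_cases hik : i = k
    · rw [hik, hammingDist_self]; omega
    · rw [vert_dist hH]
      have h1 := card_P hH o hik
      have hn0 : 0 < n := by omega
      have h2 : ((univ.filter fun j => col j ∈ P H o i k).erase ⟨0, hn0⟩).card ≤
          (P H o i k).card :=
        Finset.card_le_card_of_injOn col (fun j hj => by
          have := (Finset.mem_filter.1 (Finset.mem_of_mem_erase (Finset.mem_coe.1 hj))).2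
          exact Finset.mem_coe.2 this) (fun a ha b hb h => by
            have ha' := Finset.ne_of_mem_erase (Finset.mem_coe.1 ha)
            have hb' := Finset.ne_of_mem_erase (Finset.mem_coe.1 hb)
            have h3 : max a.val 1 = max b.val 1 := congrArg Fin.val h
            have h4 : a.val ≠ 0 := fun h0 => ha' (Fin.ext h0)
            have h5 : b.val ≠ 0 := fun h0 => hb' (Fin.ext h0)
            exact Fin.ext (by omega))
      have h3 := Finset.pred_card_le_card_erase (s := univ.filter fun j => col j ∈ P H o i k)
        (a := (⟨0, hn0⟩ : Fin n))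
      omega

/-- the construction -/
theorem balanced_of_hadamard {r : ℕ} (h : ∃ H, IsHadamard (4 * (r / 2)) H) {n : ℕ} (_hn : 1 ≤ n)
    (hb : Bound n r) : ∃ B : Finset (Fin n → Bool), Balanced B ∧ DiamLe B r := by
  rcases Nat.lt_or_ge r n with hlt | hge
  · obtain ⟨H, hH⟩ := h
    rcases Nat.even_or_odd r with he | ho
    · have h1 := hb.1 he
      obtain ⟨m, hm⟩ := he
      exact even_case ⟨m, hm⟩ (by omega) hlt h1 (by omega) hH
    · have h1 := hb.2 (Nat.not_even_iff_odd.2 ho)
      obtain ⟨m, hm⟩ := ho
      rcases h1 with h1 | h1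
      · exact odd_case ⟨m, hm⟩ (by omega) hlt h1 (by omega) hH
      · omega
  · refine ⟨univ, balanced_univ n, fun a _ b _ => ?_⟩
    refine le_trans (hammingDist_le_card_fintype) ?_
    simpa using hge

end Pool.Agent.Q123.CB
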