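import Pool.Agent.Y335.FL.Order

/-!
# Balls in graphs of girth at least twelve

Let `G` be a graph without circuits of length less than twelve in which all degrees are zero or at
least three.  Then a ball of radius `r` contains at most the share `(3 * 2 ^ r - 2) / 126` of all
ends of edges, and at most the share `(4 * 2 ^ r - 2) / 126` of all edges meets it.
-/

set_option autoImplicit false
set_option linter.unusedSectionVars false

namespace Pool.Agent.Q123.CB

open Finset Pool.Agent.TH676.Z Pool.Agent.Y335.FL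

variable {V : Type} [Fintype V] [DecidableEq V]

open Classical in
/-- the last darts of the paths with `k` edges which start at `u` -/
noncomputable def LD (G : SimpleGraph V) (k : ℕ) (u : V) : Finset (V × V) :=
  univ.filter (fun d => G.Adj d.1 d.2 ∧ ∃ p : G.Walk u d.1, p.IsPath ∧ p.length + 1 = k ∧
    d.2 ∉ p.support)

open Classical in
/-- all darts -/
noncomputable def PD (G : SimpleGraph V) : Finset (V × V) := univ.filter (fun d => G.Adj d.1 d.2)

variable {G : SimpleGraph V}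

theorem mem_LD {k : ℕ} {u : V} {d : V × V} : d ∈ LD G k u ↔ G.Adj d.1 d.2 ∧
    ∃ p : G.Walk u d.1, p.IsPath ∧ p.length + 1 = k ∧ d.2 ∉ p.support := by
  classical
  unfold LD
  rw [mem_filter]
  exact ⟨fun h => h.2, fun h => ⟨mem_univ _, h⟩⟩

theorem mem_PD {d : V × V} : d ∈ PD G ↔ G.Adj d.1 d.2 := by
  classical
  unfold PD
  rw [mem_filter]
  exact ⟨fun h => h.2, fun h => ⟨mem_univ _, h⟩⟩

/-- the degrees are zero or at least three -/
def Th3 (G : SimpleGraph V) : Prop :=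
  ∀ x y, G.Adj x y → ∃ a b c, G.Adj x a ∧ G.Adj x b ∧ G.Adj x c ∧ a ≠ b ∧ a ≠ c ∧ b ≠ c

/-- no short circuits -/
def G12 (G : SimpleGraph V) : Prop := ∀ (w : V) (c : G.Walk w w), c.IsCycle → 12 ≤ c.length

theorem last_eq (h12 : G12 G) {u a b : V} {p : G.Walk u b} (hp : p.IsPath)
    (hl : p.length ≤ 10) (hab : G.Adj a b) (ha : a ∈ p.support) :
    ∃ q : G.Walk u a, q.IsPath ∧ b ∉ q.support ∧ p = q.concat hab := by
  have e := Ord.uniq h12 (hp.dropUntil ha) (Ord.edge_path hab) (by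
    have h5 := p.length_dropUntil_le_length ha
    simp only [SimpleGraph.Walk.length_cons, SimpleGraph.Walk.length_nil]
    omega)
  have e2 : p = (p.takeUntil a ha).concat hab := by
    rw [SimpleGraph.Walk.concat_eq_append, ← e, SimpleGraph.Walk.take_spec]
  refine ⟨p.takeUntil a ha, hp.takeUntil ha, ?_, e2⟩
  intro hb
  have h6 := hp
  rw [e2] at h6
  have h7 := h6.support_nodup
  rw [SimpleGraph.Walk.support_concat, List.nodup_append] at h7
  exact h7.2.2 b hb b (List.mem_singleton_self b) rfl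

/-- two darts at the same level and more generally the levels are disjoint -/
theorem LD_level (h12 : G12 G) {k l : ℕ} (hk : k ≤ 6) (hl : l ≤ 6) {u : V} {d : V × V}
    (h1 : d ∈ LD G k u) (h2 : d ∈ LD G l u) : k = l := by
  obtain ⟨-, p, hp, hpk, -⟩ := mem_LD.1 h1
  obtain ⟨-, q, hq, hql, -⟩ := mem_LD.1 h2
  have := Ord.uniq h12 hp hq (by omega)
  rw [← hpk, ← hql, this]

theorem LD_swap (h12 : G12 G) {k l : ℕ} (hk : k ≤ 6) (hl : l ≤ 6) {u : V} {d : V × V}
    (h1 : d ∈ LD G k u) (h2 : d.swap ∈ LD G l u) : False := by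
  obtain ⟨had, p, hp, hpk, hb⟩ := mem_LD.1 h1
  obtain ⟨had', q, hq, hql, ha⟩ := mem_LD.1 h2
  have hq' : G.Adj d.2 d.1 := had.symm
  have hq2 := (show q.IsPath from hq).concat (show d.1 ∉ q.support from ha) hq'
  have := Ord.uniq h12 hp hq2 (by
    rw [SimpleGraph.Walk.length_concat]
    omega)
  apply hb
  rw [this, SimpleGraph.Walk.support_concat]
  simp only [List.mem_append, List.mem_singleton]
  exact Or.inl q.end_mem_support

theorem LD_step (h12 : G12 G) (h3 : Th3 G) {u : V} {k : ℕ} (hk : k ≤ 5) :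
    2 * (LD G k u).card ≤ (LD G (k + 1) u).card := by
  classical
  set C : V × V → Finset (V × V) := fun d => univ.filter (fun f => f.1 = d.2 ∧ G.Adj d.2 f.2 ∧
    f.2 ≠ d.1) with hC
  have k1 : ∀ d ∈ LD G k u, 2 ≤ (C d).card := by
    intro d hd
    obtain ⟨had, p, hp, hpk, hb⟩ := mem_LD.1 hd
    have hmem : ∀ w, G.Adj d.2 w → w ≠ d.1 → (d.2, w) ∈ C d := by
      intro w hw hne
      rw [hC]
      simp only [mem_filter, mem_univ, true_and]
      exact ⟨hw, hne⟩
    have hpair : ∀ x y : V, x ≠ y → (d.2, x) ∈ C d → (d.2, y) ∈ C d → 2 ≤ (C d).card := by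
      intro x y hxy hx hy
      have h4 : ({(d.2, x), (d.2, y)} : Finset (V × V)) ⊆ C d := by
        intro w hw
        rw [mem_insert, mem_singleton] at hw
        rcases hw with rfl | rfl
        · exact hx
        · exact hy
      have h5 : ({(d.2, x), (d.2, y)} : Finset (V × V)).card = 2 :=
        card_pair (fun h => hxy (congrArg Prod.snd h))
      rw [← h5]
      exact card_le_card h4
    obtain ⟨a, b, c, ha, hb, hc, hab, hac, hbc⟩ := h3 d.2 d.1 had.symm
    by_cases e1 : a = d.1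
    · exact hpair b c hbc (hmem _ hb (fun h => hab (e1.trans h.symm)))
        (hmem _ hc (fun h => hac (e1.trans h.symm)))
    · by_cases e2 : b = d.1
      · exact hpair a c hac (hmem _ ha e1) (hmem _ hc (fun h => hbc (e2.trans h.symm)))
      · exact hpair a b hab (hmem _ ha e1) (hmem _ hb e2)
  have k2 : (LD G k u).biUnion C ⊆ LD G (k + 1) u := by
    intro f hf
    obtain ⟨d, hd, hf'⟩ := mem_biUnion.1 hf
    obtain ⟨had, p, hp, hpk, hb⟩ := mem_LD.1 hd
    obtain ⟨hf1, hf2, hf3⟩ := (mem_filter.1 hf').2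
    obtain ⟨x, y⟩ := f
    simp only at hf1 hf2 hf3
    subst hf1
    refine mem_LD.2 ⟨hf2, p.concat had, hp.concat hb had, ?_, ?_⟩
    · rw [SimpleGraph.Walk.length_concat]
      omega
    · intro hy
      obtain ⟨q, hq, hbq, e⟩ := last_eq h12 (hp.concat hb had) (by
        rw [SimpleGraph.Walk.length_concat]
        omega) hf2.symm hy
      have := congrArg SimpleGraph.Walk.penultimate e
      rw [SimpleGraph.Walk.penultimate_concat, SimpleGraph.Walk.penultimate_concat] at this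
      exact hf3 this.symm
  have k3 : ∀ d ∈ LD G k u, ∀ d' ∈ LD G k u, d ≠ d' → Disjoint (C d) (C d') := by
    intro d hd d' hd' hne
    rw [disjoint_left]
    intro f hf hf'
    obtain ⟨hf1, -, -⟩ := (mem_filter.1 hf).2
    obtain ⟨hf1', -, -⟩ := (mem_filter.1 hf').2
    obtain ⟨had, p, hp, hpk, hb⟩ := mem_LD.1 hd
    obtain ⟨had', p', hp', hpk', hb'⟩ := mem_LD.1 hd'
    obtain ⟨a, b⟩ := d
    obtain ⟨a', b'⟩ := d'
    simp only at hf1 hf1' had had' hb hb' p p'
    have hbb : b = b' := hf1.symm.trans hf1'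
    subst hbb
    have e := Ord.uniq h12 (hp.concat hb had) (hp'.concat hb' had') (by
      rw [SimpleGraph.Walk.length_concat, SimpleGraph.Walk.length_concat]
      omega)
    have e2 := congrArg SimpleGraph.Walk.penultimate e
    rw [SimpleGraph.Walk.penultimate_concat, SimpleGraph.Walk.penultimate_concat] at e2
    exact hne (Prod.ext e2 rfl)
  calc 2 * (LD G k u).card = ∑ _v ∈ LD G k u, 2 := by
        rw [sum_const, smul_eq_mul, mul_comm]
    _ ≤ ∑ v ∈ LD G k u, (C v).card := sum_le_sum k1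
    _ = ((LD G k u).biUnion C).card := (card_biUnion k3).symm
    _ ≤ _ := card_le_card k2

/-- the darts of the levels `1, ..., r` -/
noncomputable def UD (G : SimpleGraph V) (r : ℕ) (u : V) : Finset (V × V) :=
  (Icc 1 r).biUnion fun k => LD G k u

theorem mem_UD {r : ℕ} {u : V} {d : V × V} :
    d ∈ UD G r u ↔ ∃ k, (1 ≤ k ∧ k ≤ r) ∧ d ∈ LD G k u := by
  unfold UD
  rw [mem_biUnion]
  simp only [mem_Icc]

theorem card_UD (h12 : G12 G) {r : ℕ} (hr : r ≤ 6) (u : V) :
    (UD G r u).card = ∑ k ∈ Icc 1 r, (LD G k u).card := by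
  unfold UD
  refine card_biUnion ?_
  intro k hk l hl hne
  change Disjoint (LD G k u) (LD G l u)
  rw [disjoint_left]
  intro d hd hd'
  have h1 := mem_Icc.1 (mem_coe.1 hk)
  have h2 := mem_Icc.1 (mem_coe.1 hl)
  exact hne (LD_level h12 (by omega) (by omega) hd hd')

theorem two_card (h12 : G12 G) (u : V) :
    2 * ∑ k ∈ Icc 1 6, (LD G k u).card ≤ (PD G).card := by
  classical
  rw [← card_UD h12 le_rfl u]
  have h1 : Disjoint (UD G 6 u) ((UD G 6 u).image Prod.swap) := by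
    rw [disjoint_left]
    intro d hd hd'
    obtain ⟨f, hf, rfl⟩ := mem_image.1 hd'
    obtain ⟨k, hk, hk'⟩ := mem_UD.1 hd
    obtain ⟨l, hl, hl'⟩ := mem_UD.1 hf
    exact LD_swap h12 hl.2 hk.2 hl' hk'
  have h2 : UD G 6 u ∪ (UD G 6 u).image Prod.swap ⊆ PD G := by
    intro d hd
    rcases mem_union.1 hd with h | h
    · obtain ⟨k, -, hk⟩ := mem_UD.1 h
      exact mem_PD.2 (mem_LD.1 hk).1
    · obtain ⟨f, hf, rfl⟩ := mem_image.1 h
      obtain ⟨k, -, hk⟩ := mem_UD.1 hf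
      exact mem_PD.2 (mem_LD.1 hk).1.symm
  have h3 := card_le_card h2
  rw [card_union_of_disjoint h1, card_image_of_injective _ Prod.swap_injective] at h3
  omega

open Classical in
/-- the ball -/
noncomputable def Bl (G : SimpleGraph V) (r : ℕ) (u : V) : Finset V :=
  univ.filter (fun v => ∃ p : G.Walk u v, p.length ≤ r)

theorem mem_Bl {r : ℕ} {u v : V} : v ∈ Bl G r u ↔ ∃ p : G.Walk u v, p.length ≤ r := by
  classical
  unfold Bl
  rw [mem_filter]
  exact ⟨fun h => h.2, fun h => ⟨mem_univ _, h⟩⟩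

open Classical in
/-- the darts which start in a ball -/
noncomputable def DA (G : SimpleGraph V) (r : ℕ) (u : V) : Finset (V × V) :=
  (PD G).filter (fun d => d.1 ∈ Bl G r u)

open Classical in
/-- the darts which meet a ball -/
noncomputable def DE (G : SimpleGraph V) (r : ℕ) (u : V) : Finset (V × V) :=
  (PD G).filter (fun d => d.1 ∈ Bl G r u ∨ d.2 ∈ Bl G r u)

theorem dart_cases (h12 : G12 G) {r : ℕ} (hr : r ≤ 5) {u a b : V} (hab : G.Adj a b)
    (ha : a ∈ Bl G r u) : (a, b) ∈ UD G (r + 1) u ∨ (b, a) ∈ UD G r u := by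
  classical
  obtain ⟨w, hw⟩ := mem_Bl.1 ha
  have hp := w.bypass_isPath
  have hl := w.length_bypass_le_length
  set p := w.bypass
  by_cases hb : b ∈ p.support
  · right
    obtain ⟨q, hq, haq, e⟩ := last_eq h12 hp (by omega) hab.symm hb
    have hlen : p.length = q.length + 1 := by rw [e, SimpleGraph.Walk.length_concat]
    exact mem_UD.2 ⟨p.length, ⟨by omega, by omega⟩, mem_LD.2 ⟨hab.symm, q, hq, hlen.symm, haq⟩⟩
  · left
    exact mem_UD.2 ⟨p.length + 1, ⟨by omega, by omega⟩, mem_LD.2 ⟨hab, p, hp, rfl, hb⟩⟩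

theorem UD_mono {r s : ℕ} (h : r ≤ s) (u : V) : UD G r u ⊆ UD G s u := by
  intro d hd
  obtain ⟨k, hk, hk'⟩ := mem_UD.1 hd
  exact mem_UD.2 ⟨k, ⟨hk.1, hk.2.trans h⟩, hk'⟩

theorem card_DA (h12 : G12 G) {r : ℕ} (hr : r ≤ 5) (u : V) :
    (DA G r u).card ≤ ∑ k ∈ Icc 1 (r + 1), (LD G k u).card + ∑ k ∈ Icc 1 r, (LD G k u).card := by
  classical
  rw [← card_UD h12 (show r + 1 ≤ 6 by omega) u, ← card_UD h12 (show r ≤ 6 by omega) u]
  have h1 : DA G r u ⊆ UD G (r + 1) u ∪ (UD G r u).image Prod.swap := by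
    intro d hd
    obtain ⟨h2, h3⟩ := mem_filter.1 hd
    rcases dart_cases h12 hr (mem_PD.1 h2) h3 with h | h
    · exact mem_union_left _ h
    · exact mem_union_right _ (mem_image.2 ⟨_, h, rfl⟩)
  refine (card_le_card h1).trans ((card_union_le _ _).trans ?_)
  rw [card_image_of_injective _ Prod.swap_injective]

theorem card_DE (h12 : G12 G) {r : ℕ} (hr : r ≤ 5) (u : V) :
    (DE G r u).card ≤ 2 * ∑ k ∈ Icc 1 (r + 1), (LD G k u).card := by
  classical
  rw [← card_UD h12 (show r + 1 ≤ 6 by omega) u]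
  have h1 : DE G r u ⊆ UD G (r + 1) u ∪ (UD G (r + 1) u).image Prod.swap := by
    intro d hd
    obtain ⟨h2, h3⟩ := mem_filter.1 hd
    rcases h3 with h3 | h3
    · rcases dart_cases h12 hr (mem_PD.1 h2) h3 with h | h
      · exact mem_union_left _ h
      · exact mem_union_right _ (mem_image.2 ⟨_, UD_mono (Nat.le_succ r) u h, rfl⟩)
    · rcases dart_cases h12 hr (mem_PD.1 h2).symm h3 with h | h
      · exact mem_union_right _ (mem_image.2 ⟨_, h, rfl⟩)
      · exact mem_union_left _ (UD_mono (Nat.le_succ r) u h)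
  refine (card_le_card h1).trans ((card_union_le _ _).trans ?_)
  rw [card_image_of_injective _ Prod.swap_injective]
  omega

/-- arithmetic -/
theorem arS (l : ℕ → ℕ) : ∑ k ∈ Icc 1 0, l k = 0 ∧ ∑ k ∈ Icc 1 1, l k = l 1 ∧
    ∑ k ∈ Icc 1 2, l k = l 1 + l 2 ∧ ∑ k ∈ Icc 1 3, l k = l 1 + l 2 + l 3 ∧
    ∑ k ∈ Icc 1 4, l k = l 1 + l 2 + l 3 + l 4 ∧
    ∑ k ∈ Icc 1 5, l k = l 1 + l 2 + l 3 + l 4 + l 5 ∧
    ∑ k ∈ Icc 1 6, l k = l 1 + l 2 + l 3 + l 4 + l 5 + l 6 := by
  have e0 : ∑ k ∈ Icc 1 0, l k = 0 := by simp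
  have e1 : ∑ k ∈ Icc 1 1, l k = l 1 := by simp
  have e2 : ∑ k ∈ Icc 1 2, l k = l 1 + l 2 := by
    rw [sum_Icc_succ_top (by norm_num), e1]
  have e3 : ∑ k ∈ Icc 1 3, l k = l 1 + l 2 + l 3 := by
    rw [sum_Icc_succ_top (by norm_num), e2]
  have e4 : ∑ k ∈ Icc 1 4, l k = l 1 + l 2 + l 3 + l 4 := by
    rw [sum_Icc_succ_top (by norm_num), e3]
  have e5 : ∑ k ∈ Icc 1 5, l k = l 1 + l 2 + l 3 + l 4 + l 5 := by
    rw [sum_Icc_succ_top (by norm_num), e4]
  have e6 : ∑ k ∈ Icc 1 6, l k = l 1 + l 2 + l 3 + l 4 + l 5 + l 6 := by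
    rw [sum_Icc_succ_top (by norm_num), e5]
  exact ⟨e0, e1, e2, e3, e4, e5, e6⟩

theorem arA (l : ℕ → ℕ) (P D r : ℕ) (hr : r ≤ 5)
    (h1 : 2 * ∑ k ∈ Icc 1 6, l k ≤ P) (hs : ∀ k, k ≤ 5 → 2 * l k ≤ l (k + 1))
    (h2 : D ≤ ∑ k ∈ Icc 1 (r + 1), l k + ∑ k ∈ Icc 1 r, l k) :
    126 * D ≤ (3 * 2 ^ r - 2) * P := by
  have s1 : 2 * l 1 ≤ l 2 := hs 1 (by norm_num)
  have s2 : 2 * l 2 ≤ l 3 := hs 2 (by norm_num)
  have s3 : 2 * l 3 ≤ l 4 := hs 3 (by norm_num)
  have s4 : 2 * l 4 ≤ l 5 := hs 4 (by norm_num)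
  have s5 : 2 * l 5 ≤ l 6 := hs 5 (by norm_num)
  obtain ⟨e0, e1, e2, e3, e4, e5, e6⟩ := arS l
  rw [e6] at h1
  obtain rfl | rfl | rfl | rfl | rfl | rfl : r = 0 ∨ r = 1 ∨ r = 2 ∨ r = 3 ∨ r = 4 ∨ r = 5 := by
    omega
  · simp only [Nat.reduceAdd, e0, e1] at h2
    norm_num
    omega
  · simp only [Nat.reduceAdd, e1, e2] at h2
    norm_num
    omega
  · simp only [Nat.reduceAdd, e3, e2] at h2
    norm_num
    omega
  · simp only [Nat.reduceAdd, e3, e4] at h2
    norm_num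
    omega
  · simp only [Nat.reduceAdd, e5, e4] at h2
    norm_num
    omega
  · simp only [Nat.reduceAdd, e5, e6] at h2
    norm_num
    omega

theorem arE (l : ℕ → ℕ) (P D r : ℕ) (hr : r ≤ 4)
    (h1 : 2 * ∑ k ∈ Icc 1 6, l k ≤ P) (hs : ∀ k, k ≤ 5 → 2 * l k ≤ l (k + 1))
    (h2 : D ≤ 2 * ∑ k ∈ Icc 1 (r + 1), l k) :
    126 * D ≤ (4 * 2 ^ r - 2) * P := by
  have s1 : 2 * l 1 ≤ l 2 := hs 1 (by norm_num)
  have s2 : 2 * l 2 ≤ l 3 := hs 2 (by norm_num)
  have s3 : 2 * l 3 ≤ l 4 := hs 3 (by norm_num)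
  have s4 : 2 * l 4 ≤ l 5 := hs 4 (by norm_num)
  have s5 : 2 * l 5 ≤ l 6 := hs 5 (by norm_num)
  obtain ⟨e0, e1, e2, e3, e4, e5, e6⟩ := arS l
  rw [e6] at h1
  obtain rfl | rfl | rfl | rfl | rfl : r = 0 ∨ r = 1 ∨ r = 2 ∨ r = 3 ∨ r = 4 := by
    omega
  · simp only [Nat.reduceAdd, e1] at h2
    norm_num
    omega
  · simp only [Nat.reduceAdd, e2] at h2
    norm_num
    omega
  · simp only [Nat.reduceAdd, e3] at h2
    norm_num
    omega
  · simp only [Nat.reduceAdd, e4] at h2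
    norm_num
    omega
  · simp only [Nat.reduceAdd, e5] at h2
    norm_num
    omega

theorem DA_share (h12 : G12 G) (h3 : Th3 G) (r : ℕ) (u : V) :
    126 * (DA G r u).card ≤ (3 * 2 ^ r - 2) * (PD G).card := by
  rcases Nat.lt_or_ge r 6 with hr | hr
  · exact arA (fun k => (LD G k u).card) _ _ r (by omega) (two_card h12 u)
      (fun k hk => LD_step h12 h3 hk) (card_DA h12 (by omega) u)
  · have h2 : (DA G r u).card ≤ (PD G).card := card_le_card (filter_subset _ _)
    have h4 : 2 ^ 6 ≤ 2 ^ r := Nat.pow_le_pow_right (by norm_num) hr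
    exact Nat.mul_le_mul (by omega) h2

theorem DE_share (h12 : G12 G) (h3 : Th3 G) (r : ℕ) (u : V) :
    126 * (DE G r u).card ≤ (4 * 2 ^ r - 2) * (PD G).card := by
  rcases Nat.lt_or_ge r 5 with hr | hr
  · exact arE (fun k => (LD G k u).card) _ _ r (by omega) (two_card h12 u)
      (fun k hk => LD_step h12 h3 hk) (card_DE h12 (by omega) u)
  · have h2 : (DE G r u).card ≤ (PD G).card := card_le_card (filter_subset _ _)
    have h4 : 2 ^ 5 ≤ 2 ^ r := Nat.pow_le_pow_right (by norm_num) hr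
    exact Nat.mul_le_mul (by omega) h2

end Pool.Agent.Q123.CB
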