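import Pool.Agent.Q123.CB.Had

set_option autoImplicit false

/-!
Hadamard matrices: products and the matrices of Paley.
-/

namespace Pool.Agent.Q123.CB

open Finset

/-- there is a Hadamard matrix of order `N` -/
def HadOrder (N : ℕ) : Prop := ∃ H : Matrix (Fin N) (Fin N) ℤ, IsHadamard N H

theorem hadOrder_of {ι : Type*} [Fintype ι] [DecidableEq ι] (H : Matrix ι ι ℤ)
    (h1 : ∀ i j, H i j = 1 ∨ H i j = -1)
    (h2 : H * H.transpose = ((Fintype.card ι : ℕ) : ℤ) • (1 : Matrix ι ι ℤ)) {N : ℕ}
    (hN : Fintype.card ι = N) : HadOrder N := by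
  subst hN
  set e := (Fintype.equivFin ι).symm with he
  refine ⟨H.submatrix e e, fun i j => h1 _ _, ?_⟩
  rw [Matrix.transpose_submatrix, Matrix.submatrix_mul_equiv, h2]
  ext i j
  simp only [Matrix.submatrix_apply, Matrix.smul_apply, smul_eq_mul, Matrix.one_apply,
    EmbeddingLike.apply_eq_iff_eq]

theorem hadOrder_mul {a b : ℕ} (ha : HadOrder a) (hb : HadOrder b) : HadOrder (a * b) := by
  obtain ⟨A, hA1, hA2⟩ := ha
  obtain ⟨B, hB1, hB2⟩ := hb
  refine hadOrder_of (Matrix.kroneckerMap (· * ·) A B) (fun i j => ?_) ?_ (by simp)
  · simp only [Matrix.kroneckerMap_apply]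
    rcases hA1 i.1 j.1 with h | h <;> rcases hB1 i.2 j.2 with h' | h' <;> rw [h, h'] <;> simp
  · ext i j
    have e1 := congrFun (congrFun hA2 i.1) j.1
    have e2 := congrFun (congrFun hB2 i.2) j.2
    rw [Matrix.mul_apply] at e1 e2 ⊢
    simp only [Matrix.transpose_apply, Matrix.kroneckerMap_apply, Matrix.smul_apply,
      smul_eq_mul] at e1 e2 ⊢
    rw [Fintype.sum_prod_type]
    have e3 : ∀ x : Fin a, ∀ y : Fin b, A i.1 x * B i.2 y * (A j.1 x * B j.2 y) =
        (A i.1 x * A j.1 x) * (B i.2 y * B j.2 y) := fun x y => by ring
    simp only [e3]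
    rw [← Finset.sum_mul_sum, e1, e2]
    simp only [Fintype.card_prod, Fintype.card_fin, Matrix.one_apply, Nat.cast_mul]
    by_cases h1 : i.1 = j.1
    · by_cases h2 : i.2 = j.2
      · have : i = j := Prod.ext h1 h2
        simp [this]
      · have : i ≠ j := fun h => h2 (by rw [h])
        simp [h2, this]
    · have : i ≠ j := fun h => h1 (by rw [h])
      simp [h1, this]

theorem hadOrder_two : HadOrder 2 := by
  refine ⟨!![1, 1; 1, -1], ?_, ?_⟩
  · intro i j
    fin_cases i <;> fin_cases j <;> simp
  · ext i j
    fin_cases i <;> fin_cases j <;> simp [Matrix.mul_apply, Fin.sum_univ_two]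

theorem hadOrder_one : HadOrder 1 := by
  refine ⟨!![1], ?_, ?_⟩
  · intro i j
    fin_cases i; fin_cases j; simp
  · ext i j
    fin_cases i; fin_cases j; simp [Matrix.mul_apply]

theorem hadOrder_two_pow (m : ℕ) : HadOrder (2 ^ m) := by
  induction m with
  | zero => exact hadOrder_one
  | succ m ih => rw [pow_succ]; exact hadOrder_mul ih hadOrder_two

section paley

variable {F : Type*} [Field F] [Fintype F] [DecidableEq F]

theorem qc_sum (hF : ringChar F ≠ 2) {a b : F} (hab : a ≠ b) :
    ∑ y, quadraticChar F (a - y) * quadraticChar F (b - y) = -1 := by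
  have hinv : (quadraticChar F)⁻¹ = quadraticChar F := (quadraticChar_isQuadratic F).inv
  have h1 := jacobiSum_nontrivial_inv (quadraticChar_ne_one hF)
  rw [hinv, jacobiSum] at h1
  have hc : b - a ≠ 0 := sub_ne_zero.2 (Ne.symm hab)
  have h2 : ∑ y, quadraticChar F (a - y) * quadraticChar F (b - y) =
      ∑ x, quadraticChar F (a - (a + (b - a) * x)) *
        quadraticChar F (b - (a + (b - a) * x)) := by
    refine (Finset.sum_equiv ((Equiv.mulLeft₀ (b - a) hc).trans (Equiv.addLeft a))
      (by simp) ?_).symm
    intro x _
    simp
  rw [h2]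
  have h3 : ∀ x : F, quadraticChar F (a - (a + (b - a) * x)) *
      quadraticChar F (b - (a + (b - a) * x)) =
      quadraticChar F (-1) * (quadraticChar F x * quadraticChar F (1 - x)) := by
    intro x
    have e1 : a - (a + (b - a) * x) = (-1) * (b - a) * x := by ring
    have e2 : b - (a + (b - a) * x) = (b - a) * (1 - x) := by ring
    rw [e1, e2]
    simp only [map_mul]
    have h4 := quadraticChar_sq_one hc
    calc _ = quadraticChar F (b - a) ^ 2 *
          (quadraticChar F (-1) * (quadraticChar F x * quadraticChar F (1 - x))) := by ring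
      _ = _ := by rw [h4, one_mul]
  simp only [h3]
  rw [← Finset.mul_sum, h1]
  have h5 : quadraticChar F (-1) ^ 2 = 1 := quadraticChar_sq_one (neg_ne_zero.2 one_ne_zero)
  rw [mul_neg, ← sq, h5]

/-- the matrix of Paley -/
def paley (F : Type*) [Field F] [Fintype F] [DecidableEq F] : Matrix (Option F) (Option F) ℤ
  | none, _ => 1
  | some _, none => -1
  | some x, some y => if x = y then 1 else quadraticChar F (x - y)

theorem paley_ss (x y : F) : paley F (some x) (some y) =
    if x = y then 1 else quadraticChar F (x - y) := rfl

theorem paley_pm (i j : Option F) : paley F i j = 1 ∨ paley F i j = -1 := by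
  rcases i with _ | x
  · left; rfl
  rcases j with _ | y
  · right; rfl
  rw [paley_ss]
  split_ifs with h1
  · left; rfl
  · exact quadraticChar_dichotomy (sub_ne_zero.2 h1)

omit [DecidableEq F] in
theorem ringChar_ne_two_of (h : Fintype.card F % 4 = 3) : ringChar F ≠ 2 := by
  intro h2
  have := FiniteField.even_card_of_char_two h2
  omega

theorem qc_neg (h : Fintype.card F % 4 = 3) (x : F) :
    quadraticChar F (-x) = - quadraticChar F x := by
  have h1 : quadraticChar F (-1) = -1 := by
    rw [quadraticChar_neg_one (ringChar_ne_two_of h)]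
    have : ((Fintype.card F : ℕ) : ZMod 4) = 3 := by
      rw [← Nat.div_add_mod (Fintype.card F) 4, h]
      push_cast
      have : (4 : ZMod 4) = 0 := by decide
      rw [this]; simp
    rw [this]
    decide
  rw [neg_eq_neg_one_mul, map_mul, h1]
  ring

theorem paley_row (h : Fintype.card F % 4 = 3) (x : F) : ∑ y, paley F (some x) (some y) = 1 := by
  have h1 : ∀ y, paley F (some x) (some y) =
      quadraticChar F (x - y) + if x = y then 1 else 0 := by
    intro y
    rw [paley_ss]
    split_ifs with h2
    · rw [h2, sub_self, quadraticChar_zero, zero_add]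
    · rw [add_zero]
  simp only [h1]
  rw [Finset.sum_add_distrib, Finset.sum_ite_eq, if_pos (Finset.mem_univ _)]
  have h2 : ∑ y, quadraticChar F (x - y) = ∑ y, quadraticChar F y := by
    refine Finset.sum_equiv (Equiv.subLeft x) (by simp) ?_
    intro y _
    simp
  rw [h2, quadraticChar_sum_zero (ringChar_ne_two_of h), zero_add]

theorem paley_had (h : Fintype.card F % 4 = 3) : HadOrder (Fintype.card F + 1) := by
  refine hadOrder_of (paley F) paley_pm ?_ (by simp)
  · have hsymm : ∀ i j, i ≠ j → ∑ c, paley F i c * paley F j c = 0 := by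
      have key1 : ∀ x : F, ∑ c, paley F none c * paley F (some x) c = 0 := by
        intro x
        rw [Fintype.sum_option]
        have : ∀ y, paley F none (some y) * paley F (some x) (some y) =
            paley F (some x) (some y) := fun y => by
          change (1 : ℤ) * _ = _
          rw [one_mul]
        simp only [this]
        rw [paley_row h]
        rfl
      have key2 : ∀ x x' : F, x ≠ x' → ∑ c, paley F (some x) c * paley F (some x') c = 0 := by
        intro x x' hx
        rw [Fintype.sum_option]
        have h3 : ∀ y, paley F (some x) (some y) * paley F (some x') (some y) =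
            quadraticChar F (x - y) * quadraticChar F (x' - y) +
              ((if x = y then quadraticChar F (x' - y) else 0) +
                (if x' = y then quadraticChar F (x - y) else 0)) := by
          intro y
          rw [paley_ss, paley_ss]
          by_cases h1 : x = y
          · have h2 : x' ≠ y := fun h => hx (h1.trans h.symm)
            rw [if_pos h1, if_neg h2, if_pos h1, if_neg h2, h1, sub_self, quadraticChar_zero]
            ring
          · by_cases h2 : x' = y
            · rw [if_neg h1, if_pos h2, if_neg h1, if_pos h2, h2, sub_self, quadraticChar_zero]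
              ring
            · rw [if_neg h1, if_neg h2, if_neg h1, if_neg h2]
              ring
        simp only [h3]
        rw [Finset.sum_add_distrib, Finset.sum_add_distrib, Finset.sum_ite_eq,
          Finset.sum_ite_eq, if_pos (Finset.mem_univ _), if_pos (Finset.mem_univ _),
          qc_sum (ringChar_ne_two_of h) hx]
        have h4 : quadraticChar F (x' - x) = - quadraticChar F (x - x') := by
          rw [← qc_neg h, neg_sub]
        rw [h4]
        change (-1 : ℤ) * (-1) + _ = 0
        ring
      intro i j hij
      rcases i with _ | x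
      · rcases j with _ | x'
        · exact absurd rfl hij
        · exact key1 x'
      · rcases j with _ | x'
        · rw [← key1 x]
          exact Finset.sum_congr rfl fun c _ => mul_comm _ _
        · exact key2 x x' fun h => hij (by rw [h])
    have hpm : ∀ i j, paley F i j = 1 ∨ paley F i j = -1 := paley_pm
    ext i j
    rw [Matrix.mul_apply, Matrix.smul_apply, smul_eq_mul]
    simp only [Matrix.transpose_apply]
    by_cases hij : i = j
    · subst hij
      rw [Matrix.one_apply_eq, mul_one]
      have : ∀ c, paley F i c * paley F i c = 1 := fun c => by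
        rcases hpm i c with h | h <;> rw [h] <;> norm_num
      simp only [this]
      simp
    · rw [Matrix.one_apply_ne hij, mul_zero]
      exact hsymm i j hij

end paley

theorem hadOrder_paley {p k : ℕ} (hp : p.Prime) (h : p ^ k % 4 = 3) : HadOrder (p ^ k + 1) := by
  classical
  have : Fact p.Prime := ⟨hp⟩
  have hk : k ≠ 0 := by
    rintro rfl
    simp at h
  let _ : Fintype (GaloisField p k) := Fintype.ofFinite _
  have hcard : Fintype.card (GaloisField p k) = p ^ k := by
    rw [← Nat.card_eq_fintype_card, GaloisField.card p k hk]
  have h1 := paley_had (F := GaloisField p k) (by rw [hcard]; exact h)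
  rwa [hcard] at h1

end Pool.Agent.Q123.CB
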